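import Pool.Agent.H174.GP.StH
import Pool.Agent.H187.GP174.L3

/-!
# Project GP (helper174): the exponent is at most `1/4`

`gp_thq`: the upper bound `θ ≤ 1/4` from the decomposition at the maximum of the integrated walk
(`S_argmax`), the time reversal bound (`S_bback`) and the comparison (`S_chain`).
-/

set_option autoImplicit false

open MeasureTheory ProbabilityTheory Finset Filter Topology

namespace Pool.Agent.H372.GP174.thq

open Pool.Agent.H174.GP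

/-- The tail of one coordinate. -/
lemma tail1 {t : ℝ} (ht : 0 ≤ t) : PP.real {ω : ℕ → ℝ | t < |ω 1|} ≤ Real.exp (-t) := by
  have hm : MeasurableSet {x : ℝ | t ≤ |x|} :=
    measurableSet_le measurable_const measurable_norm
  have h := (measurePreserving_eval_infinitePi (fun _ : ℕ => lap) 1).measureReal_preimage
    hm.nullMeasurableSet
  rw [← Pool.Agent.H187.GP174.lap_tail t ht, ← h]
  refine measureReal_mono ?_ (measure_ne_top _ _)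
  intro ω hω
  have h3 : t < |ω 1| := hω
  exact h3.le

lemma aI_le_aP (k : ℕ) {B : ℝ} (hB : 0 ≤ B) : aI k ≤ aP k B := by
  unfold aI aP
  refine measureReal_mono ?_ (measure_ne_top _ _)
  intro ω hω j hj
  have h1 := hω j hj
  have h2 : 0 ≤ ((j : ℝ) + 1) * B := by positivity
  linarith

lemma aP_le_one (k : ℕ) (B : ℝ) : aP k B ≤ 1 := measureReal_le_one

lemma aP_nonneg (k : ℕ) (B : ℝ) : 0 ≤ aP k B := measureReal_nonneg

lemma aI_nonneg (k : ℕ) : 0 ≤ aI k := measureReal_nonneg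

/-- `∑_{1≤k≤n} k^{-a} ≤ n^{1-a}/(1-a)`. -/
lemma pow_sum {a : ℝ} (ha0 : 0 ≤ a) (ha : a < 1) (n : ℕ) :
    ∑ k ∈ Finset.Icc 1 n, (k : ℝ) ^ (-a) ≤ (n : ℝ) ^ (1 - a) / (1 - a) := by
  have hp : 0 < 1 - a := by linarith
  induction n with
  | zero => 
    have h : (0 : ℝ) ≤ ((0 : ℕ) : ℝ) ^ (1 - a) / (1 - a) := by positivity
    simpa using h
  | succ N ih =>
    rw [Finset.sum_Icc_succ_top (by omega)]
    have hN : (0 : ℝ) < (N : ℝ) + 1 := by positivity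
    have hs : -1 ≤ -(1 / ((N : ℝ) + 1)) := by
      have : 1 / ((N : ℝ) + 1) ≤ 1 := by
        rw [div_le_one hN]
        have : (0 : ℝ) ≤ N := by positivity
        linarith
      linarith
    have h1 := rpow_one_add_le_one_add_mul_self hs (p := 1 - a) hp.le (by linarith)
    have h2 : (N : ℝ) ^ (1 - a) = ((N : ℝ) + 1) ^ (1 - a) * (1 + -(1 / ((N : ℝ) + 1))) ^ (1 - a) := by
      rw [← Real.mul_rpow hN.le (by linarith)]
      congr 1
      field_simp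
      ring
    have h3 : ((N : ℝ) + 1) ^ (1 - a) = ((N : ℝ) + 1) ^ (-a) * ((N : ℝ) + 1) := by
      rw [show 1 - a = -a + 1 by ring, Real.rpow_add hN, Real.rpow_one]
    have h4 : (N : ℝ) ^ (1 - a) ≤ ((N : ℝ) + 1) ^ (1 - a) - (1 - a) * ((N : ℝ) + 1) ^ (-a) := by
      rw [h2]
      refine (mul_le_mul_of_nonneg_left h1 (Real.rpow_nonneg hN.le _)).trans (le_of_eq ?_)
      rw [h3]
      field_simp
      ring
    push_cast
    refine (add_le_add ih le_rfl).trans ?_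
    rw [div_add' _ _ _ hp.ne', div_le_div_iff_of_pos_right hp]
    linarith

/-- The convolution sum. -/
lemma conv_sum {a b : ℝ} (ha0 : 0 ≤ a) (ha : a < 1) (hb0 : 0 ≤ b) (hb : b < 1) (n : ℕ)
    (hn : 1 ≤ n) :
    ∑ m ∈ Finset.Ico 1 n, (m : ℝ) ^ (-a) * ((n - m : ℕ) : ℝ) ^ (-b) ≤
      (2 ^ a / (1 - b) + 2 ^ b / (1 - a)) * (n : ℝ) ^ (1 - a - b) := by
  have hn0 : (0 : ℝ) < n := by exact_mod_cast hn
  have key : ∀ m ∈ Finset.Ico 1 n, (m : ℝ) ^ (-a) * ((n - m : ℕ) : ℝ) ^ (-b) ≤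
      ((n : ℝ) / 2) ^ (-a) * ((n - m : ℕ) : ℝ) ^ (-b) + ((n : ℝ) / 2) ^ (-b) * (m : ℝ) ^ (-a) := by
    intro m hm
    rw [Finset.mem_Ico] at hm
    have hm0 : (0 : ℝ) < m := by exact_mod_cast hm.1
    have hnm : (0 : ℝ) < ((n - m : ℕ) : ℝ) := by
      have : 0 < n - m := by omega
      exact_mod_cast this
    have hc : ((n - m : ℕ) : ℝ) = n - m := by
      rw [Nat.cast_sub hm.2.le]
    rcases le_total ((n : ℝ) / 2) m with h | h
    · have h1 : (m : ℝ) ^ (-a) ≤ ((n : ℝ) / 2) ^ (-a) :=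
        Real.rpow_le_rpow_of_nonpos (by positivity) h (by linarith)
      have h2 := mul_le_mul_of_nonneg_right h1 (Real.rpow_nonneg hnm.le (-b))
      have h3 : 0 ≤ ((n : ℝ) / 2) ^ (-b) * (m : ℝ) ^ (-a) := by positivity
      linarith
    · have h1 : ((n - m : ℕ) : ℝ) ^ (-b) ≤ ((n : ℝ) / 2) ^ (-b) :=
        Real.rpow_le_rpow_of_nonpos (by positivity) (by rw [hc]; linarith) (by linarith)
      have h2 := mul_le_mul_of_nonneg_right h1 (Real.rpow_nonneg hm0.le (-a))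
      have h3 : 0 ≤ ((n : ℝ) / 2) ^ (-a) * ((n - m : ℕ) : ℝ) ^ (-b) := by positivity
      have h4 : (m : ℝ) ^ (-a) * ((n - m : ℕ) : ℝ) ^ (-b) =
        ((n - m : ℕ) : ℝ) ^ (-b) * (m : ℝ) ^ (-a) := mul_comm _ _
      linarith
  refine (Finset.sum_le_sum key).trans ?_
  rw [Finset.sum_add_distrib, ← Finset.mul_sum, ← Finset.mul_sum]
  have hr : ∑ m ∈ Finset.Ico 1 n, ((n - m : ℕ) : ℝ) ^ (-b) = ∑ m ∈ Finset.Ico 1 n, (m : ℝ) ^ (-b) := by
    refine Finset.sum_nbij' (fun m => n - m) (fun m => n - m) ?_ ?_ ?_ ?_ ?_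
    · intro m hm
      rw [Finset.mem_Ico] at hm ⊢
      omega
    · intro m hm
      rw [Finset.mem_Ico] at hm ⊢
      omega
    · intro m hm
      rw [Finset.mem_Ico] at hm
      omega
    · intro m hm
      rw [Finset.mem_Ico] at hm
      omega
    · intro m _
      rfl
  have hsub : Finset.Ico 1 n ⊆ Finset.Icc 1 n := by
    intro m hm
    rw [Finset.mem_Ico] at hm
    rw [Finset.mem_Icc]
    omega
  have sb : ∑ m ∈ Finset.Ico 1 n, (m : ℝ) ^ (-b) ≤ (n : ℝ) ^ (1 - b) / (1 - b) :=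
    (Finset.sum_le_sum_of_subset_of_nonneg hsub (fun i _ _ => by positivity)).trans (pow_sum hb0 hb n)
  have sa : ∑ m ∈ Finset.Ico 1 n, (m : ℝ) ^ (-a) ≤ (n : ℝ) ^ (1 - a) / (1 - a) :=
    (Finset.sum_le_sum_of_subset_of_nonneg hsub (fun i _ _ => by positivity)).trans (pow_sum ha0 ha n)
  rw [hr]
  have e1 : ∀ c : ℝ, ((n : ℝ) / 2) ^ (-c) = (n : ℝ) ^ (-c) * 2 ^ c := by
    intro c
    rw [Real.div_rpow hn0.le (by norm_num), Real.rpow_neg (by norm_num : (0:ℝ) ≤ 2) c, div_inv_eq_mul]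
  rw [e1 a, e1 b]
  have t1 : (n : ℝ) ^ (-a) * 2 ^ a * ∑ m ∈ Finset.Ico 1 n, (m : ℝ) ^ (-b) ≤
      (n : ℝ) ^ (-a) * 2 ^ a * ((n : ℝ) ^ (1 - b) / (1 - b)) :=
    mul_le_mul_of_nonneg_left sb (by positivity)
  have t2 : (n : ℝ) ^ (-b) * 2 ^ b * ∑ m ∈ Finset.Ico 1 n, (m : ℝ) ^ (-a) ≤
      (n : ℝ) ^ (-b) * 2 ^ b * ((n : ℝ) ^ (1 - a) / (1 - a)) :=
    mul_le_mul_of_nonneg_left sa (by positivity)
  have f1 : (n : ℝ) ^ (-a) * (n : ℝ) ^ (1 - b) = (n : ℝ) ^ (1 - a - b) := by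
    rw [← Real.rpow_add hn0]
    congr 1
    ring
  have f2 : (n : ℝ) ^ (-b) * (n : ℝ) ^ (1 - a) = (n : ℝ) ^ (1 - a - b) := by
    rw [← Real.rpow_add hn0]
    congr 1
    ring
  have g1 : (n : ℝ) ^ (-a) * 2 ^ a * ((n : ℝ) ^ (1 - b) / (1 - b)) =
      2 ^ a / (1 - b) * (n : ℝ) ^ (1 - a - b) := by
    rw [← f1]
    ring
  have g2 : (n : ℝ) ^ (-b) * 2 ^ b * ((n : ℝ) ^ (1 - a) / (1 - a)) =
      2 ^ b / (1 - a) * (n : ℝ) ^ (1 - a - b) := by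
    rw [← f2]
    ring
  rw [g1] at t1
  rw [g2] at t2
  linarith [add_le_add t1 t2]

/-- A uniform bound for `aP`. -/
lemma unif {θ' ε : ℝ} (h0 : 0 < θ') (hε : 0 < ε) {n : ℕ} (hn : 1 ≤ n) {B : ℝ}
    (H : ∀ m : ℕ, (n : ℝ) ^ ε ≤ m → m ≤ n → aP m B ≤ (m : ℝ) ^ (-θ')) {k : ℕ} (hk : 1 ≤ k)
    (hkn : k ≤ n) : aP k B ≤ (n : ℝ) ^ (ε * θ') * (k : ℝ) ^ (-θ') := by
  have hn0 : (0 : ℝ) ≤ n := by positivity
  have hn1 : (1 : ℝ) ≤ n := by exact_mod_cast hn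
  have hk0 : (0 : ℝ) < k := by exact_mod_cast hk
  rcases le_or_gt ((n : ℝ) ^ ε) k with h | h
  · refine (H k h hkn).trans ?_
    have h1 : (1 : ℝ) ≤ (n : ℝ) ^ (ε * θ') := Real.one_le_rpow hn1 (by positivity)
    have h2 : (0 : ℝ) ≤ (k : ℝ) ^ (-θ') := by positivity
    nlinarith
  · refine (aP_le_one k B).trans ?_
    rw [Real.rpow_mul hn0, Real.rpow_neg hk0.le]
    have h1 : (k : ℝ) ^ θ' ≤ ((n : ℝ) ^ ε) ^ θ' := Real.rpow_le_rpow hk0.le h.le h0.le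
    have h2 : 0 < (k : ℝ) ^ θ' := by positivity
    rw [← div_eq_mul_inv, one_le_div h2]
    exact h1

/-- A uniform bound for `aP (m/2)`. -/
lemma unif2 {θ' ε : ℝ} (h0 : 0 < θ') (h1' : θ' ≤ 1) (hε : 0 < ε) {n : ℕ} (hn : 1 ≤ n) {B : ℝ}
    (H : ∀ m : ℕ, (n : ℝ) ^ ε ≤ m → m ≤ n → aP m B ≤ (m : ℝ) ^ (-θ')) {m : ℕ} (hm : 1 ≤ m)
    (hmn : m ≤ n) : aP (m / 2) B ≤ 3 * (n : ℝ) ^ (ε * θ') * (m : ℝ) ^ (-θ') := by
  have hn1 : (1 : ℝ) ≤ n := by exact_mod_cast hn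
  have hD : (1 : ℝ) ≤ (n : ℝ) ^ (ε * θ') := Real.one_le_rpow hn1 (by positivity)
  rcases Nat.lt_or_ge m 2 with h | h
  · have h1 : m = 1 := by omega
    subst h1
    refine (aP_le_one _ B).trans ?_
    rw [Nat.cast_one, Real.one_rpow]
    linarith
  · refine (unif h0 hε hn H (k := m / 2) (by omega) (by omega)).trans ?_
    have hm0 : (0 : ℝ) < m := by positivity
    have h2 : (m : ℝ) / 3 ≤ ((m / 2 : ℕ) : ℝ) := by
      have h3 : m ≤ 3 * (m / 2) := by omega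
      have h4 : (m : ℝ) ≤ 3 * ((m / 2 : ℕ) : ℝ) := by exact_mod_cast h3
      linarith
    have h3 : ((m / 2 : ℕ) : ℝ) ^ (-θ') ≤ ((m : ℝ) / 3) ^ (-θ') :=
      Real.rpow_le_rpow_of_nonpos (by positivity) h2 (by linarith)
    have h4 : ((m : ℝ) / 3) ^ (-θ') = (m : ℝ) ^ (-θ') * 3 ^ θ' := by
      rw [Real.div_rpow hm0.le (by norm_num), Real.rpow_neg (by norm_num : (0:ℝ) ≤ 3) θ',
        div_inv_eq_mul]
    have h5 : (3 : ℝ) ^ θ' ≤ 3 := by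
      have := Real.rpow_le_rpow_of_exponent_le (x := 3) (by norm_num) h1'
      rwa [Real.rpow_one] at this
    have h6 : ((m / 2 : ℕ) : ℝ) ^ (-θ') ≤ 3 * (m : ℝ) ^ (-θ') := by
      refine h3.trans ?_
      rw [h4, mul_comm]
      exact mul_le_mul_of_nonneg_right h5 (by positivity)
    calc (n : ℝ) ^ (ε * θ') * ((m / 2 : ℕ) : ℝ) ^ (-θ')
        ≤ (n : ℝ) ^ (ε * θ') * (3 * (m : ℝ) ^ (-θ')) :=
          mul_le_mul_of_nonneg_left h6 (by positivity)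
      _ = 3 * (n : ℝ) ^ (ε * θ') * (m : ℝ) ^ (-θ') := by ring

/-- The bound for the sum in `S_argmax`. -/
lemma sum_bd {C : ℝ} (hC : 0 < C)
    (hb : ∀ (m : ℕ) (B : ℝ), 1 ≤ m → 0 ≤ B → bI m B ≤ C * (1 + B) / Real.sqrt m * aP (m / 2) B)
    {θ' ε : ℝ} (h0 : 0 < θ') (h1' : θ' < 1 / 2) (hε : 0 < ε) {n : ℕ} (hn : 1 ≤ n) {B : ℝ}
    (hB : 0 ≤ B)
    (H : ∀ m : ℕ, (n : ℝ) ^ ε ≤ m → m ≤ n → aP m B ≤ (m : ℝ) ^ (-θ')) :
    ∑ m ∈ Finset.Ico 1 n, bI m B * aI (n - m) ≤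
      C * (1 + B) * 3 * (n : ℝ) ^ (2 * (ε * θ')) *
        ((2 ^ (1 / 2 + θ') / (1 - θ') + 2 ^ θ' / (1 - (1 / 2 + θ'))) *
          (n : ℝ) ^ (1 - (1 / 2 + θ') - θ')) := by
  have hn0 : (0 : ℝ) < n := by exact_mod_cast hn
  have hc := conv_sum (a := 1 / 2 + θ') (b := θ') (by linarith) (by linarith) h0.le (by linarith) n hn
  refine le_trans ?_ (mul_le_mul_of_nonneg_left hc (by positivity))
  rw [Finset.mul_sum]
  refine Finset.sum_le_sum fun m hm => ?_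
  rw [Finset.mem_Ico] at hm
  have hm0 : (0 : ℝ) < m := by exact_mod_cast hm.1
  have a1 : bI m B ≤ C * (1 + B) / Real.sqrt m * (3 * (n : ℝ) ^ (ε * θ') * (m : ℝ) ^ (-θ')) :=
    (hb m B hm.1 hB).trans (mul_le_mul_of_nonneg_left
      (unif2 h0 (by linarith) hε hn H hm.1 hm.2.le) (by positivity))
  have a2 : aI (n - m) ≤ (n : ℝ) ^ (ε * θ') * ((n - m : ℕ) : ℝ) ^ (-θ') :=
    (aI_le_aP _ hB).trans (unif h0 hε hn H (by omega) (by omega))
  have e1 : (Real.sqrt m)⁻¹ * (m : ℝ) ^ (-θ') = (m : ℝ) ^ (-(1 / 2 + θ')) := by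
    rw [Real.sqrt_eq_rpow, ← Real.rpow_neg hm0.le, ← Real.rpow_add hm0]
    congr 1
    ring
  have e2 : (n : ℝ) ^ (ε * θ') * (n : ℝ) ^ (ε * θ') = (n : ℝ) ^ (2 * (ε * θ')) := by
    rw [← Real.rpow_add hn0]
    congr 1
    ring
  calc bI m B * aI (n - m)
      ≤ (C * (1 + B) / Real.sqrt m * (3 * (n : ℝ) ^ (ε * θ') * (m : ℝ) ^ (-θ'))) *
          ((n : ℝ) ^ (ε * θ') * ((n - m : ℕ) : ℝ) ^ (-θ')) :=
        mul_le_mul a1 a2 (aI_nonneg _) (by positivity)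
    _ = C * (1 + B) * 3 * ((n : ℝ) ^ (ε * θ') * (n : ℝ) ^ (ε * θ')) *
          (((Real.sqrt m)⁻¹ * (m : ℝ) ^ (-θ')) * ((n - m : ℕ) : ℝ) ^ (-θ')) := by
        rw [div_eq_mul_inv]
        ring
    _ = C * (1 + B) * 3 * (n : ℝ) ^ (2 * (ε * θ')) *
          ((m : ℝ) ^ (-(1 / 2 + θ')) * ((n - m : ℕ) : ℝ) ^ (-θ')) := by
        rw [e1, e2]

/-- `(1 + 4 log n) n^{-δ} → 0`. -/
lemma tend_log {δ : ℝ} (hδ : 0 < δ) :
    Tendsto (fun n : ℕ => (1 + 4 * Real.log n) * (n : ℝ) ^ (-δ)) atTop (𝓝 0) := by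
  have h1 : Tendsto (fun x : ℝ => x ^ (-δ)) atTop (𝓝 0) := tendsto_rpow_neg_atTop hδ
  have h2 : Tendsto (fun x : ℝ => Real.log x / x ^ δ) atTop (𝓝 0) :=
    (isLittleO_log_rpow_atTop hδ).tendsto_div_nhds_zero
  have h3 : Tendsto (fun x : ℝ => x ^ (-δ) + 4 * (Real.log x / x ^ δ)) atTop (𝓝 (0 + 4 * 0)) :=
    h1.add (h2.const_mul 4)
  rw [mul_zero, add_zero] at h3
  have h4 := h3.comp (tendsto_natCast_atTop_atTop (R := ℝ))
  refine h4.congr' ?_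
  filter_upwards with n
  have hn : (0 : ℝ) ≤ n := by positivity
  simp only [Function.comp_apply]
  rw [Real.rpow_neg hn, div_eq_mul_inv]
  ring

/-- **The exponent is at most `1/4`.** -/
theorem gp_thq (h1 : S_argmax) (h2 : S_bback) (h3 : S_chain) : Pool.Agent.H174.GP.S_thq := by
  intro θ hθ
  by_contra hcon
  rw [not_le] at hcon
  obtain ⟨C, hC, hb⟩ := h2
  obtain ⟨θ', ht1, ht2⟩ : ∃ θ' : ℝ, 1 / 4 < θ' ∧ θ' < min θ (1 / 2) :=
    exists_between (lt_min hcon (by norm_num))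
  have ht3 : θ' < θ := ht2.trans_le (min_le_left _ _)
  have ht4 : θ' < 1 / 2 := ht2.trans_le (min_le_right _ _)
  have h0 : 0 < θ' := by linarith
  obtain ⟨ε, hε, hε1, hε2⟩ : ∃ ε : ℝ, 0 < ε ∧ ε ≤ θ - θ' ∧ ε ≤ (2 * θ' - 1 / 2) / 2 :=
    ⟨min (θ - θ') ((2 * θ' - 1 / 2) / 2), lt_min (by linarith) (by linarith),
      min_le_left _ _, min_le_right _ _⟩
  obtain ⟨n0, hn0⟩ := h3 θ hθ ε 4 hε (by norm_num)
  set K : ℝ := 2 ^ (1 / 2 + θ') / (1 - θ') + 2 ^ θ' / (1 - (1 / 2 + θ')) with hK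
  have hK0 : 0 ≤ K := by
    have i1 : 0 < 1 - θ' := by linarith
    have i2 : 0 < 1 - (1 / 2 + θ') := by linarith
    positivity
  set δ : ℝ := (2 * θ' - 1 / 2) / 2 with hδ
  have hδ0 : 0 < δ := by rw [hδ]; linarith
  -- the bound
  have main : ∀ n : ℕ, n0 ≤ n → 1 ≤ n →
      1 / 2 ≤ (n : ℝ) ^ (-3 : ℝ) + (n : ℝ) ^ (-θ') +
        (C * 3 * K) * ((1 + 4 * Real.log n) * (n : ℝ) ^ (-δ)) := by
    intro n hn hn1
    have hnR : (1 : ℝ) ≤ n := by exact_mod_cast hn1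
    have hnp : (0 : ℝ) < n := by linarith
    have hB : 0 ≤ 4 * Real.log n := by
      have := Real.log_nonneg hnR
      linarith
    have H : ∀ m : ℕ, (n : ℝ) ^ ε ≤ m → m ≤ n → aP m (4 * Real.log n) ≤ (m : ℝ) ^ (-θ') := by
      intro m hm1 hm2
      refine (hn0 n hn m hm1 hm2).trans ?_
      have hm3 : (1 : ℝ) ≤ m := (Real.one_le_rpow hnR hε.le).trans hm1
      exact Real.rpow_le_rpow_of_exponent_le hm3 (by linarith)
    have hA := h1 n (4 * Real.log n) hn1 hB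
    have hT : (n : ℝ) * PP.real {ω | 4 * Real.log n < |ω 1|} ≤ (n : ℝ) ^ (-3 : ℝ) := by
      refine (mul_le_mul_of_nonneg_left (tail1 hB) hnp.le).trans (le_of_eq ?_)
      rw [show -(4 * Real.log n) = Real.log n * (-4) by ring, Real.exp_mul, Real.exp_log hnp]
      nth_rw 1 [← Real.rpow_one (n : ℝ)]
      rw [← Real.rpow_add hnp]
      norm_num
    have hN : aI n ≤ (n : ℝ) ^ (-θ') := by
      refine (aI_le_aP n hB).trans (H n ?_ le_rfl)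
      calc (n : ℝ) ^ ε ≤ (n : ℝ) ^ (1 : ℝ) :=
            Real.rpow_le_rpow_of_exponent_le hnR (by linarith)
        _ = n := Real.rpow_one _
    have hS := sum_bd hC hb h0 ht4 hε hn1 hB H
    have hS2 : C * (1 + 4 * Real.log n) * 3 * (n : ℝ) ^ (2 * (ε * θ')) *
        ((2 ^ (1 / 2 + θ') / (1 - θ') + 2 ^ θ' / (1 - (1 / 2 + θ'))) *
          (n : ℝ) ^ (1 - (1 / 2 + θ') - θ')) ≤
        (C * 3 * K) * ((1 + 4 * Real.log n) * (n : ℝ) ^ (-δ)) := by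
      rw [← hK]
      have j1 : (n : ℝ) ^ (2 * (ε * θ')) * (n : ℝ) ^ (1 - (1 / 2 + θ') - θ') ≤ (n : ℝ) ^ (-δ) := by
        rw [← Real.rpow_add hnp]
        refine Real.rpow_le_rpow_of_exponent_le hnR ?_
        have : 2 * (ε * θ') ≤ ε := by nlinarith
        rw [hδ]
        linarith
      have j2 : 0 ≤ (C * 3 * K) * (1 + 4 * Real.log n) := by positivity
      calc C * (1 + 4 * Real.log n) * 3 * (n : ℝ) ^ (2 * (ε * θ')) *
            (K * (n : ℝ) ^ (1 - (1 / 2 + θ') - θ'))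
          = (C * 3 * K) * (1 + 4 * Real.log n) *
            ((n : ℝ) ^ (2 * (ε * θ')) * (n : ℝ) ^ (1 - (1 / 2 + θ') - θ')) := by ring
        _ ≤ (C * 3 * K) * (1 + 4 * Real.log n) * (n : ℝ) ^ (-δ) :=
            mul_le_mul_of_nonneg_left j1 j2
        _ = (C * 3 * K) * ((1 + 4 * Real.log n) * (n : ℝ) ^ (-δ)) := by ring
    linarith
  -- the limit
  have l1 : Tendsto (fun n : ℕ => (n : ℝ) ^ (-3 : ℝ)) atTop (𝓝 0) :=
    (tendsto_rpow_neg_atTop (by norm_num)).comp tendsto_natCast_atTop_atTop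
  have l2 : Tendsto (fun n : ℕ => (n : ℝ) ^ (-θ')) atTop (𝓝 0) :=
    (tendsto_rpow_neg_atTop h0).comp tendsto_natCast_atTop_atTop
  have l3 := (l1.add l2).add ((tend_log hδ0).const_mul (C * 3 * K))
  rw [mul_zero, add_zero, add_zero] at l3
  have l4 := l3.eventually (gt_mem_nhds (show (0 : ℝ) < 1 / 2 by norm_num))
  obtain ⟨n, hn⟩ := (l4.and (eventually_ge_atTop (max n0 1))).exists
  have := main n ((le_max_left _ _).trans hn.2) ((le_max_right _ _).trans hn.2)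
  linarith [hn.1]

end Pool.Agent.H372.GP174.thq
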